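import Mathlib

/-! Counting residues of short sums of minimal generators. -/

set_option autoImplicit false
open Finset

namespace Pool.Agent.MP_f20d00_al

theorem exists_block (y : ℕ → ℕ) (n N : ℕ) (hn : 0 < n) (hN : n ≤ N) :
    ∃ l j, l < j ∧ j ≤ N ∧ n ∣ ∑ t ∈ Ico l j, y t := by
  obtain ⟨a, ha, b, hb, hab, h⟩ := Finset.exists_ne_map_eq_of_card_lt_of_maps_to
    (s := range (N + 1)) (t := range n) (by simp; omega)
    (f := fun j => (∑ t ∈ range j, y t) % n)
    (fun j _ => by simpa using Nat.mod_lt _ hn)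
  have key : ∀ a b, a < b → b ≤ N → (∑ t ∈ range a, y t) % n = (∑ t ∈ range b, y t) % n →
      ∃ l j, l < j ∧ j ≤ N ∧ n ∣ ∑ t ∈ Ico l j, y t := by
    intro a b hlt hbN h
    refine ⟨a, b, hlt, hbN, ?_⟩
    have e := Finset.sum_range_add_sum_Ico y hlt.le
    have h' : (∑ t ∈ range a, y t) + 0 ≡ (∑ t ∈ range a, y t) + ∑ t ∈ Ico a b, y t [MOD n] := by
      rw [e]; exact h
    exact (Nat.modEq_zero_iff_dvd).mp (Nat.ModEq.add_left_cancel' _ h').symm
  rw [mem_range] at ha hb
  rcases lt_or_gt_of_ne hab with hlt | hlt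
  · exact key a b hlt (by omega) h
  · exact key b a hlt (by omega) h.symm

theorem count_bound (y : ℕ → ℕ) (n h N P r : ℕ) (hn : 0 < n) (hrh : r ≤ h)
    (hrP : r * P ≤ (h + 1) * n)
    (hmono : ∀ t t', t ≤ t' → t' < N → y t ≤ y t')
    (hpos : ∀ t, t < N → 0 < y t) (hP : ∀ t, t < N → y t ≤ P)
    (hmul : ∀ p, ((range N).filter (fun t => y t = p)).card ≤ h)
    (hmin : ∀ I ⊆ range N, ∀ q t, t < N → 2 ≤ I.card + q → ∑ i ∈ I, y i + q * n ≠ y t)
    (H2 : ∀ I ⊆ range N, I.card ≤ h + 1 → ∀ q, 1 ≤ q → q ≤ h + 1 → ∑ i ∈ I, y i ≠ q * n)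
    (H3 : ∀ I ⊆ range N, I.card ≤ h + 1 → ∀ q t, t < N → 1 ≤ q → q ≤ h →
      ∑ i ∈ I, y i ≠ y t + q * n) :
    N < n ∨ ∃ k D, 1 ≤ k ∧ (r + 1) * k + D ≤ n ∧ N ≤ h * k + D := by
  classical
  have hsum : ∀ I ⊆ range N, I.card ≤ r → ∑ i ∈ I, y i ≤ (h + 1) * n := by
    intro I hI hc
    have h1 : ∑ i ∈ I, y i ≤ I.card • P :=
      Finset.sum_le_card_nsmul I y P (fun i hi => hP i (mem_range.mp (hI hi)))
    rw [smul_eq_mul] at h1
    exact h1.trans ((Nat.mul_le_mul_right _ hc).trans hrP)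
  have Z : ∀ I ⊆ range N, I.Nonempty → I.card ≤ r → ¬ n ∣ ∑ i ∈ I, y i := by
    rintro I hI hne hc ⟨q, hq⟩
    have h0 : 0 < ∑ i ∈ I, y i :=
      Finset.sum_pos (fun i hi => hpos i (mem_range.mp (hI hi))) hne
    have h1 := hsum I hI hc
    have hq1 : 1 ≤ q := by
      rcases Nat.eq_zero_or_pos q with h | h
      · rw [h] at hq; omega
      · exact h
    have hq2 : q ≤ h + 1 := by
      rw [hq, mul_comm] at h1
      exact Nat.le_of_mul_le_mul_right h1 hn
    exact H2 I hI (by omega) q hq1 hq2 (by rw [hq, mul_comm])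
  have Inc0 : ∀ t t', t < N → t' < N → y t' ≤ y t → y t' ≡ y t [MOD n] → y t' = y t := by
    intro t t' ht ht' hle hm
    obtain ⟨q, hq⟩ := (Nat.modEq_iff_dvd' hle).mp hm
    rcases Nat.eq_zero_or_pos q with h0 | h0
    · rw [h0] at hq; omega
    · exfalso
      refine hmin {t'} (by simpa using ht') q t ht (by simp; omega) ?_
      rw [sum_singleton, mul_comm]; omega
  have Inc : ∀ t t', t < N → t' < N → y t' ≡ y t [MOD n] → y t' = y t := by
    intro t t' ht ht' hm
    rcases le_total (y t') (y t) with hle | hle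
    · exact Inc0 t t' ht ht' hle hm
    · exact (Inc0 t' t ht' ht hle hm.symm).symm
  have Big : ∀ I ⊆ range N, ∀ t0 ∈ I, 2 ≤ I.card → I.card ≤ r + 1 → ∀ t, t < N → y t0 ≤ y t →
      ¬ (∑ i ∈ I, y i ≡ y t [MOD n]) := by
    intro I hI t0 ht0 h2 hc t ht hle hm
    rcases le_or_gt (∑ i ∈ I, y i) (y t) with hl | hl
    · obtain ⟨q, hq⟩ := (Nat.modEq_iff_dvd' hl).mp hm
      refine hmin I hI q t ht (by omega) ?_
      rw [mul_comm]; omega
    · obtain ⟨q, hq⟩ := (Nat.modEq_iff_dvd' hl.le).mp hm.symm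
      have hq1 : 1 ≤ q := by
        rcases Nat.eq_zero_or_pos q with h | h
        · rw [h] at hq; omega
        · exact h
      rcases le_or_gt q h with hqh | hqh
      · refine H3 I hI (by omega) q t ht hq1 hqh ?_
        rw [mul_comm]; omega
      · have hsub : I.erase t0 ⊆ range N := (erase_subset _ _).trans hI
        have hcard : (I.erase t0).card = I.card - 1 := card_erase_of_mem ht0
        have e := Finset.add_sum_erase I y ht0
        have h1 := hsum _ hsub (by omega)
        have h3 : (h + 1) * n ≤ n * q := by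
          rw [mul_comm]; exact Nat.mul_le_mul_left _ hqh
        refine Z _ hsub (card_pos.mp (by omega)) (by omega) ⟨h + 1, ?_⟩
        rw [mul_comm]; omega
  rcases le_or_gt N r with hNr | hNr
  · left
    by_contra hc
    obtain ⟨l, j, hlj, hj, hd⟩ := exists_block y n N hn (by omega)
    refine Z (Ico l j) (fun t ht => ?_) (nonempty_Ico.mpr hlj) ?_ hd
    · rw [mem_Ico] at ht; rw [mem_range]; omega
    · rw [Nat.card_Ico]; omega
  right
  set L := (Ico r N).image y with hL
  set J := (range r).filter (fun t => y t ∉ L) with hJ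
  have hmemL : ∀ p, p ∈ L → ∃ t, r ≤ t ∧ t < N ∧ y t = p := by
    intro p hp
    obtain ⟨t, ht, e⟩ := mem_image.mp hp
    rw [mem_Ico] at ht
    exact ⟨t, ht.1, ht.2, e⟩
  have hins : ∀ l j t, l ≤ j → j ≤ r → r ≤ t → t < N →
      insert t (Ico l j) ⊆ range N ∧ (insert t (Ico l j)).card = j - l + 1 ∧
      ∑ i ∈ range j, y i + y t = ∑ i ∈ range l, y i + ∑ i ∈ insert t (Ico l j), y i := by
    intro l j t hlj hj hrt ht
    have hnot : t ∉ Ico l j := by rw [mem_Ico]; omega
    refine ⟨fun i hi => ?_, by rw [card_insert_of_notMem hnot, Nat.card_Ico], ?_⟩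
    · rw [mem_insert, mem_Ico] at hi; rw [mem_range]; omega
    · rw [sum_insert hnot, ← Finset.sum_range_add_sum_Ico y hlj]; ring
  have hIco : ∀ l j, j ≤ r → Ico l j ⊆ range N := by
    intro l j hj i hi
    rw [mem_Ico] at hi; rw [mem_range]; omega
  have c1 : ∀ l j p p', l < j → j ≤ r → p ∈ L → p' ∈ L →
      ¬ (∑ i ∈ range j, y i + p ≡ ∑ i ∈ range l, y i + p' [MOD n]) := by
    intro l j p p' hlj hj hp hp' hm
    obtain ⟨t, hrt, ht, rfl⟩ := hmemL p hp
    obtain ⟨t', hrt', ht', rfl⟩ := hmemL p' hp'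
    obtain ⟨h1, h2, h3⟩ := hins l j t hlj.le hj hrt ht
    rw [h3] at hm
    refine Big _ h1 l (mem_insert_of_mem (mem_Ico.mpr ⟨le_rfl, hlj⟩)) (by omega) (by omega) t' ht'
      (hmono _ _ (by omega) ht') (Nat.ModEq.add_left_cancel' _ hm)
  have c2 : ∀ j p t, j ≤ r → p ∈ L → t ∈ J →
      ¬ (∑ i ∈ range j, y i + p ≡ ∑ i ∈ range (t + 1), y i [MOD n]) := by
    intro j p t hj hp htJ hm
    obtain ⟨tp, hrt, ht, rfl⟩ := hmemL p hp
    rw [hJ, mem_filter, mem_range] at htJ
    rcases le_or_gt (t + 1) j with hl | hl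
    · obtain ⟨h1, h2, h3⟩ := hins (t + 1) j tp hl hj hrt ht
      rw [h3] at hm
      have hm' : ∑ i ∈ insert tp (Ico (t + 1) j), y i ≡ 0 [MOD n] :=
        Nat.ModEq.add_left_cancel' _ hm
      exact Z _ h1 (insert_nonempty _ _) (by omega) (Nat.modEq_zero_iff_dvd.mp hm')
    · rw [← Finset.sum_range_add_sum_Ico y hl.le] at hm
      have hm' := Nat.ModEq.add_left_cancel' _ hm
      rcases (show j = t ∨ j < t by omega) with e | e
      · subst e
        rw [Nat.Ico_succ_singleton, sum_singleton] at hm'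
        have := Inc j tp (by omega) ht hm'
        exact htJ.2 (this ▸ hp)
      · refine Big _ (hIco j (t + 1) (by omega)) j (mem_Ico.mpr ⟨le_rfl, hl⟩) ?_ ?_ tp ht
          (hmono _ _ (by omega) ht) hm'.symm
        · rw [Nat.card_Ico]; omega
        · rw [Nat.card_Ico]; omega
  have c3 : ∀ t t', t < t' → t' ∈ J →
      ¬ (∑ i ∈ range (t + 1), y i ≡ ∑ i ∈ range (t' + 1), y i [MOD n]) := by
    intro t t' hlt ht' hm
    rw [hJ, mem_filter, mem_range] at ht'
    rw [← Finset.sum_range_add_sum_Ico y (show t + 1 ≤ t' + 1 by omega)] at hm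
    have hm' : 0 ≡ ∑ i ∈ Ico (t + 1) (t' + 1), y i [MOD n] :=
      Nat.ModEq.add_left_cancel' (∑ i ∈ range (t + 1), y i) hm
    refine Z _ (hIco (t + 1) (t' + 1) (by omega)) (nonempty_Ico.mpr (by omega)) ?_
      (Nat.modEq_zero_iff_dvd.mp hm'.symm)
    rw [Nat.card_Ico]; omega
  refine ⟨L.card, J.card, ?_, ?_, ?_⟩
  · exact card_pos.mpr ⟨y r, mem_image_of_mem y (mem_Ico.mpr ⟨le_rfl, hNr⟩)⟩
  · have hcard : ((range (r + 1) ×ˢ L).disjSum J).card ≤ (range n).card := by
      refine Finset.card_le_card_of_injOn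
        (Sum.elim (fun a : ℕ × ℕ => (∑ i ∈ range a.1, y i + a.2) % n)
          (fun t => (∑ i ∈ range (t + 1), y i) % n)) ?_ ?_
      · rintro (a | t) _
        · simpa using Nat.mod_lt _ hn
        · simpa using Nat.mod_lt _ hn
      · rintro (⟨j, p⟩ | t) ha (⟨l, p'⟩ | t') hb hm
        · simp only [mem_coe, inl_mem_disjSum, mem_product, mem_range] at ha hb
          simp only [Sum.elim_inl] at hm
          rcases lt_trichotomy l j with hlt | e | hlt
          · exact absurd hm (c1 l j p p' hlt (by omega) ha.2 hb.2)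
          · subst e
            obtain ⟨t, -, ht, rfl⟩ := hmemL p ha.2
            obtain ⟨t', -, ht', rfl⟩ := hmemL p' hb.2
            have := Inc t' t ht' ht (Nat.ModEq.add_left_cancel' _ hm)
            rw [this]
          · exact absurd hm.symm (c1 j l p' p hlt (by omega) hb.2 ha.2)
        · simp only [mem_coe, inl_mem_disjSum, inr_mem_disjSum, mem_product, mem_range] at ha hb
          simp only [Sum.elim_inl, Sum.elim_inr] at hm
          exact absurd hm (c2 j p t' (by omega) ha.2 hb)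
        · simp only [mem_coe, inl_mem_disjSum, inr_mem_disjSum, mem_product, mem_range] at ha hb
          simp only [Sum.elim_inl, Sum.elim_inr] at hm
          exact absurd hm.symm (c2 l p' t (by omega) hb.2 ha)
        · simp only [mem_coe, inr_mem_disjSum] at ha hb
          simp only [Sum.elim_inr] at hm
          rcases lt_trichotomy t t' with hlt | e | hlt
          · exact absurd hm (c3 t t' hlt hb)
          · rw [e]
          · exact absurd hm.symm (c3 t' t hlt ha)
    rwa [card_disjSum, card_product, card_range, card_range] at hcard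
  · have hsub : range N ⊆ L.biUnion (fun p => (range N).filter (fun t => y t = p)) ∪ J := by
      intro t ht
      rw [mem_union]
      by_cases hy : y t ∈ L
      · left
        exact mem_biUnion.mpr ⟨y t, hy, mem_filter.mpr ⟨ht, rfl⟩⟩
      · right
        rw [hJ, mem_filter, mem_range]
        refine ⟨?_, hy⟩
        by_contra hc
        exact hy (mem_image_of_mem y (mem_Ico.mpr ⟨by omega, mem_range.mp ht⟩))
    have h1 := (card_le_card hsub).trans (card_union_le _ _)
    have h2 : (L.biUnion (fun p => (range N).filter (fun t => y t = p))).card ≤ L.card * h :=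
      card_biUnion_le_card_mul _ _ _ (fun p _ => hmul p)
    rw [card_range] at h1
    rw [mul_comm]; omega

end Pool.Agent.MP_f20d00_al
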