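import Pool.Agent.P.MP_f20d00_al.Trade

/-! The tame degree: upper bound for the start of periodicity and the extremal semigroup. -/

set_option autoImplicit false

namespace Pool.Agent.MP_f20d00_al

open Finsupp

def Atoms (S : AddSubmonoid ℕ) : Set ℕ :=
  {a : ℕ | a ∈ S ∧ a ≠ 0 ∧ ∀ b ∈ S, ∀ c ∈ S, b + c = a → b = 0 ∨ c = 0}

def Fac (A : Set ℕ) (s : ℕ) : Set (ℕ →₀ ℕ) :=
  {x : ℕ →₀ ℕ | (∀ k ∈ x.support, k ∈ A) ∧ x.sum (fun k m => m * k) = s}

def Good (S : AddSubmonoid ℕ) (A : Set ℕ) (s : ℕ) : Set ℕ :=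
  {N : ℕ | ∀ i ∈ A, i ≤ s → s - i ∈ S → ∀ x ∈ Fac A s, ∃ y ∈ Fac A s, 0 < y i ∧
    max ((x - x ⊓ y).sum (fun _ m => m)) ((y - x ⊓ y).sum (fun _ m => m)) ≤ N}

theorem sum_mem (S : AddSubmonoid ℕ) (b : Multiset ℕ) (hb : ∀ k ∈ b, k ∈ Atoms S) : b.sum ∈ S :=
  S.multiset_sum_mem b (fun k hk => (hb k hk).1)

theorem atoms_pos (S : AddSubmonoid ℕ) : ∀ a ∈ Atoms S, 0 < a :=
  fun _ ha => Nat.pos_of_ne_zero ha.2.1

theorem atoms_min (S : AddSubmonoid ℕ) : ∀ a ∈ Atoms S, ∀ b : Multiset ℕ,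
    (∀ k ∈ b, k ∈ Atoms S) → 2 ≤ b.card → b.sum ≠ a := by
  intro a ha b hb hc e
  obtain ⟨k, hk⟩ := Multiset.card_pos_iff_exists_mem.mp (show 0 < b.card by omega)
  obtain ⟨z, rfl⟩ := Multiset.exists_cons_of_mem hk
  rw [Multiset.card_cons] at hc
  obtain ⟨l, hl⟩ := Multiset.card_pos_iff_exists_mem.mp (show 0 < z.card by omega)
  have hz : ∀ i ∈ z, i ∈ Atoms S := fun i hi => hb i (Multiset.mem_cons_of_mem hi)
  rw [Multiset.sum_cons] at e
  rcases ha.2.2 k (hb k hk).1 z.sum (sum_mem S z hz) e with h | h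
  · exact (hb k hk).2.1 h
  · have h1 := Multiset.single_le_sum (fun i _ => Nat.zero_le i) l hl
    have h2 := atoms_pos S l (hz l hl)
    omega

theorem sum_toM (x : ℕ →₀ ℕ) : (toMultiset x).sum = x.sum (fun k m => m * k) := by
  rw [Finsupp.sum_toMultiset]; rfl

theorem mem_fac (A : Set ℕ) (s : ℕ) (x : ℕ →₀ ℕ) :
    x ∈ Fac A s ↔ (∀ k ∈ toMultiset x, k ∈ A) ∧ (toMultiset x).sum = s := by
  simp only [Fac, Set.mem_ofPred_eq, sum_toM, mem_toMultiset]

theorem len_left (x y : ℕ →₀ ℕ) :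
    (x - x ⊓ y).sum (fun _ m => m) = (toMultiset x - toMultiset y).card := by
  have e : toMultiset (x - x ⊓ y) = toMultiset x - toMultiset y := by
    ext k
    simp only [count_toMultiset, Multiset.count_sub, Finsupp.tsub_apply, Finsupp.inf_apply]
    omega
  rw [← e, card_toMultiset]; rfl

theorem len_right (x y : ℕ →₀ ℕ) :
    (y - x ⊓ y).sum (fun _ m => m) = (toMultiset y - toMultiset x).card := by
  rw [inf_comm, len_left]

theorem good_of_trade (S : AddSubmonoid ℕ) (A : Set ℕ) (s T : ℕ)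
    (H : ∀ n ∈ A, ∀ x : Multiset ℕ, (∀ k ∈ x, k ∈ A) → x.sum = s → n ∉ x → Trade A n T x) :
    T ∈ Good S A s := by
  intro i hi _ _ x hx
  by_cases h0 : 0 < x i
  · exact ⟨x, hx, h0, by simp⟩
  obtain ⟨hx1, hx2⟩ := (mem_fac A s x).mp hx
  obtain ⟨a, ha, b, h1, h2, h3, h4, h5⟩ := H i hi (toMultiset x) hx1 hx2 (by
    rw [mem_toMultiset, mem_support_iff]; omega)
  obtain ⟨z, hz⟩ := Multiset.le_iff_exists_add.mp ha
  refine ⟨Multiset.toFinsupp (b + z), ?_, ?_, ?_⟩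
  · rw [mem_fac, Multiset.toFinsupp_toMultiset]
    refine ⟨fun k hk => ?_, ?_⟩
    · rcases Multiset.mem_add.mp hk with hk | hk
      · exact h1 k hk
      · exact hx1 k (hz ▸ Multiset.mem_add.mpr (Or.inr hk))
    · rw [← hx2, hz, Multiset.sum_add, Multiset.sum_add, h3]
  · rw [Multiset.toFinsupp_apply, Multiset.count_pos]
    exact Multiset.mem_add.mpr (Or.inl h2)
  · rw [len_left, len_right, Multiset.toFinsupp_toMultiset, hz, add_tsub_add_eq_tsub_right,
      add_tsub_add_eq_tsub_right]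
    exact max_le ((Multiset.card_le_card tsub_le_self).trans h4)
      ((Multiset.card_le_card tsub_le_self).trans h5)

theorem trade_of_good (S : AddSubmonoid ℕ) (s T : ℕ) (H : T ∈ Good S (Atoms S) s)
    (n : ℕ) (hn : n ∈ Atoms S) (x : Multiset ℕ) (hx : ∀ k ∈ x, k ∈ Atoms S) (hs : x.sum = s)
    (hnx : n ∉ x) (T' : ℕ) (h' : Trade (Atoms S) n T' x) : Trade (Atoms S) n T x := by
  obtain ⟨a, ha, b, h1, h2, h3, -, -⟩ := h'
  obtain ⟨z, hz⟩ := Multiset.le_iff_exists_add.mp ha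
  obtain ⟨c, rfl⟩ := Multiset.exists_cons_of_mem h2
  have e : s = n + (c.sum + z.sum) := by
    rw [← hs, hz, Multiset.sum_add, h3, Multiset.sum_cons, add_assoc]
  have hmem : s - n ∈ S := by
    rw [e, Nat.add_sub_cancel_left]
    exact S.add_mem (sum_mem S c (fun k hk => h1 k (Multiset.mem_cons_of_mem hk)))
      (sum_mem S z (fun k hk => hx k (hz ▸ Multiset.mem_add.mpr (Or.inr hk))))
  obtain ⟨y, hy, hy0, hd⟩ := H n hn (by omega) hmem (Multiset.toFinsupp x)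
    (by rw [mem_fac, Multiset.toFinsupp_toMultiset]; exact ⟨hx, hs⟩)
  rw [len_left, len_right, Multiset.toFinsupp_toMultiset] at hd
  obtain ⟨hy1, hy2⟩ := (mem_fac _ s y).mp hy
  refine ⟨x - toMultiset y, tsub_le_self, toMultiset y - x,
    fun k hk => hy1 k (Multiset.mem_of_le tsub_le_self hk), ?_, ?_,
    (le_max_left _ _).trans hd, (le_max_right _ _).trans hd⟩
  · rw [← Multiset.count_pos, Multiset.count_sub, count_toMultiset,
      Multiset.count_eq_zero_of_notMem hnx]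
    omega
  · have e1 := congrArg Multiset.sum (Multiset.sub_add_inter x (toMultiset y))
    have e2 := congrArg Multiset.sum (Multiset.sub_add_inter (toMultiset y) x)
    rw [Multiset.sum_add] at e1 e2
    rw [Multiset.inter_comm] at e2
    omega

theorem big_trade (S : AddSubmonoid ℕ) (M : ℕ) (hM : ∀ a ∈ Atoms S, a ≤ M) (n : ℕ)
    (hn : n ∈ Atoms S) (x : Multiset ℕ) (hx : ∀ k ∈ x, k ∈ Atoms S) (hnx : n ∉ x)
    (hs : (M - 1) ^ 2 < x.sum) : Trade (Atoms S) n (x.sum + 1) x := by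
  refine lemC _ (atoms_pos S) (atoms_min S) M hM n hn x hx hnx _ (fun k => ?_) hs
  refine (Multiset.count_le_card k x).trans ?_
  have := Multiset.card_nsmul_le_sum (s := x) (a := 1) (fun k hk => atoms_pos S k (hx k hk))
  simpa using this

theorem good_nonempty (S : AddSubmonoid ℕ) (M : ℕ) (hM : ∀ a ∈ Atoms S, a ≤ M) (s : ℕ)
    (hs : (M - 1) ^ 2 < s) : (Good S (Atoms S) s).Nonempty :=
  ⟨s + 1, good_of_trade S _ s _ (fun n hn x hx hxs hnx =>
    hxs ▸ big_trade S M hM n hn x hx hnx (hxs ▸ hs))⟩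

theorem tame_le (S : AddSubmonoid ℕ) (M : ℕ) (hM : ∀ a ∈ Atoms S, a ≤ M) (s s' : ℕ)
    (hs : (M - 1) ^ 2 < s) (hs' : (M - 1) ^ 2 < s') (hc : ∀ a ∈ Atoms S, s ≡ s' [MOD a]) :
    sInf (Good S (Atoms S) s) ≤ sInf (Good S (Atoms S) s') := by
  have hT := Nat.sInf_mem (good_nonempty S M hM s' hs')
  refine Nat.sInf_le (good_of_trade S _ s _ (fun n hn x hx hxs hnx => ?_))
  refine transfer _ (atoms_pos S) (atoms_min S) M hM s s' hs hs' hc n hn _ ?_ x hx hxs hnx
  intro x' hx' hxs' hnx'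
  exact trade_of_good S s' _ hT n hn x' hx' hxs' hnx' _
    (big_trade S M hM n hn x' hx' hnx' (hxs' ▸ hs'))

theorem tame_periodic (S : AddSubmonoid ℕ) (M : ℕ) (hM : ∀ a ∈ Atoms S, a ≤ M) (p : ℕ)
    (hp : ∀ a ∈ Atoms S, a ∣ p) (s : ℕ) (hs : (M - 1) ^ 2 < s) :
    sInf (Good S (Atoms S) (s + p)) = sInf (Good S (Atoms S) s) := by
  have hc : ∀ a ∈ Atoms S, s ≡ s + p [MOD a] := fun a ha =>
    (Nat.modEq_iff_dvd' (Nat.le_add_right s p)).mpr (by simpa using hp a ha)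
  exact le_antisymm (tame_le S M hM _ _ (by omega) hs (fun a ha => (hc a ha).symm))
    (tame_le S M hM _ _ hs (by omega) hc)

/-- the semigroup generated by `m` and `m + 1` -/
def Two (m : ℕ) : AddSubmonoid ℕ where
  carrier := {v | ∃ a b, v = a * m + b * (m + 1)}
  zero_mem' := ⟨0, 0, by simp⟩
  add_mem' := by
    rintro _ _ ⟨a, b, rfl⟩ ⟨c, d, rfl⟩
    exact ⟨a + c, b + d, by ring⟩

theorem mem_two (m v : ℕ) : v ∈ Two m ↔ ∃ a b, v = a * m + b * (m + 1) := Iff.rfl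

theorem two_cofinite (m : ℕ) (hm : 0 < m) : ((Two m : Set ℕ)ᶜ).Finite := by
  refine (Set.finite_Iio (m * m)).subset (fun v hv => ?_)
  by_contra hc
  rw [Set.mem_Iio, not_lt] at hc
  apply hv
  have h1 : m ≤ v / m := (Nat.le_div_iff_mul_le hm).mpr hc
  have h2 := Nat.mod_lt v hm
  obtain ⟨c, hc⟩ : ∃ c, v / m = c + v % m := ⟨v / m - v % m, by omega⟩
  refine ⟨c, v % m, ?_⟩
  have h3 := Nat.div_add_mod v m
  rw [hc] at h3
  nlinarith

theorem two_atoms (m : ℕ) (hm : 2 ≤ m) (k : ℕ) : k ∈ Atoms (Two m) ↔ k = m ∨ k = m + 1 := by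
  have hge : ∀ v ∈ Two m, v ≠ 0 → m ≤ v := by
    rintro _ ⟨a, b, rfl⟩ h
    rcases a with _ | a
    · rcases b with _ | b
      · simp at h
      · nlinarith [Nat.zero_le (b * (m + 1))]
    · nlinarith [Nat.zero_le (a * m), Nat.zero_le (b * (m + 1))]
  constructor
  · rintro ⟨⟨a, b, rfl⟩, h0, h⟩
    rcases a with _ | a
    · rcases b with _ | b
      · simp at h0
      · right
        rcases h (m + 1) ⟨0, 1, by ring⟩ (b * (m + 1)) ⟨0, b, by ring⟩ (by ring) with e | e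
        · omega
        · nlinarith
    · left
      rcases h m ⟨1, 0, by ring⟩ (a * m + b * (m + 1)) ⟨a, b, rfl⟩ (by ring) with e | e
      · omega
      · nlinarith
  · intro hk
    refine ⟨?_, by omega, fun b hb c hc e => ?_⟩
    · rcases hk with rfl | rfl
      · exact ⟨1, 0, by ring⟩
      · exact ⟨0, 1, by ring⟩
    · by_contra hne
      rw [not_or] at hne
      have h1 := hge b hb hne.1
      have h2 := hge c hc hne.2
      omega

theorem sq_sub_notMem (m : ℕ) (v : ℕ) (hv : v ∈ Two m) (hm : 2 ≤ m) : m + 1 + v ≠ m * m := by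
  obtain ⟨a, b, rfl⟩ := hv
  intro e
  have h1 : m ∣ b + 1 := by
    have e' : m * m = m * (a + b + 1) + (b + 1) := by rw [← e]; ring
    exact (Nat.dvd_add_right (dvd_mul_right m _)).mp (e' ▸ dvd_mul_right m m)
  have h2 := Nat.le_of_dvd (by omega) h1
  nlinarith [Nat.zero_le (a * m)]

theorem two_zero (m : ℕ) (hm : 2 ≤ m) : sInf (Good (Two m) (Atoms (Two m)) (m * m)) = 0 := by
  refine Nat.sInf_eq_zero.mpr (Or.inl ?_)
  intro i hi hle hmem x hx
  refine ⟨x, hx, ?_, by simp⟩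
  rcases (two_atoms m hm i).mp hi with rfl | rfl
  · obtain ⟨hx1, hx2⟩ := (mem_fac _ _ x).mp hx
    have hne : 0 < (toMultiset x).card := by
      rw [Multiset.card_pos]
      intro e
      rw [e] at hx2
      simp at hx2
      omega
    obtain ⟨k, hk⟩ := Multiset.card_pos_iff_exists_mem.mp hne
    rcases (two_atoms i hm k).mp (hx1 k hk) with rfl | rfl
    · rw [mem_toMultiset, mem_support_iff] at hk; omega
    · obtain ⟨z, hz⟩ := Multiset.exists_cons_of_mem hk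
      rw [hz, Multiset.sum_cons] at hx2
      exact absurd hx2 (sq_sub_notMem i _
        (sum_mem _ z (fun l hl => hx1 l (hz ▸ Multiset.mem_cons_of_mem hl))) hm)
  · exact absurd (by omega) (sq_sub_notMem m _ hmem hm)

theorem two_ne_zero (m : ℕ) (hm : 2 ≤ m) :
    sInf (Good (Two m) (Atoms (Two m)) (m * m + m * (m + 1))) ≠ 0 := by
  intro e
  have hM : ∀ a ∈ Atoms (Two m), a ≤ m + 1 := fun a ha => by
    rcases (two_atoms m hm a).mp ha with h | h <;> omega
  have hs : (m + 1 - 1) ^ 2 < m * m + m * (m + 1) := by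
    rw [Nat.add_sub_cancel]; nlinarith
  have hT := Nat.sInf_mem (good_nonempty _ _ hM _ hs)
  rw [e] at hT
  have hx : ∀ k ∈ Multiset.replicate (2 * m + 1) m, k ∈ Atoms (Two m) := fun k hk =>
    (two_atoms m hm k).mpr (Or.inl (Multiset.eq_of_mem_replicate hk))
  have hxs : (Multiset.replicate (2 * m + 1) m).sum = m * m + m * (m + 1) := by
    rw [Multiset.sum_replicate, smul_eq_mul]; ring
  have hnx : m + 1 ∉ Multiset.replicate (2 * m + 1) m := fun hk => by
    have := Multiset.eq_of_mem_replicate hk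
    omega
  have hn : m + 1 ∈ Atoms (Two m) := (two_atoms m hm _).mpr (Or.inr rfl)
  obtain ⟨a, -, b, -, h2, -, -, h5⟩ := trade_of_good _ _ _ hT (m + 1) hn _ hx hxs hnx _
    (big_trade _ _ hM _ hn _ hx hnx (hxs ▸ hs))
  have := Multiset.card_pos_iff_exists_mem.mpr ⟨_, h2⟩
  omega

end Pool.Agent.MP_f20d00_al
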