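import Pool.Agent.P.MP_f20d00_al.Count

/-! Short trades between factorizations, as multisets of generators. -/

set_option autoImplicit false
open Finset

namespace Pool.Agent.MP_f20d00_al

/-- a part of `x` with at most `T` terms can be swapped for at most `T` generators, `n` among them -/
def Trade (A : Set ℕ) (n T : ℕ) (x : Multiset ℕ) : Prop :=
  ∃ a ≤ x, ∃ b : Multiset ℕ, (∀ k ∈ b, k ∈ A) ∧ n ∈ b ∧ a.sum = b.sum ∧ a.card ≤ T ∧ b.card ≤ T

theorem Trade.mono {A : Set ℕ} {n T T' : ℕ} {x : Multiset ℕ} (h : Trade A n T x) (hT : T ≤ T') :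
    Trade A n T' x := by
  obtain ⟨a, ha, b, h1, h2, h3, h4, h5⟩ := h
  exact ⟨a, ha, b, h1, h2, h3, h4.trans hT, h5.trans hT⟩

theorem exists_index (x : Multiset ℕ) :
    ∃ (N : ℕ) (y : ℕ → ℕ), (∀ t t', t ≤ t' → t' < N → y t ≤ y t') ∧ x = (range N).val.map y := by
  set l := x.sort (· ≤ ·) with hl
  have hs : l.Pairwise (· ≤ ·) := Multiset.pairwise_sort x (· ≤ ·)
  refine ⟨l.length, fun t => l.getD t 0, ?_, ?_⟩
  · intro t t' h ht'
    have ht : t < l.length := by omega
    show l.getD t 0 ≤ l.getD t' 0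
    rw [List.getD_eq_getElem _ _ ht, List.getD_eq_getElem _ _ ht']
    rcases h.eq_or_lt with e | e
    · subst e; exact le_rfl
    · exact List.pairwise_iff_getElem.mp hs t t' ht ht' e
  · have e : (List.range l.length).map (fun t => l.getD t 0) = l := by
      apply List.ext_getElem
      · simp
      · intro i h1 h2
        simp [List.getElem?_eq_getElem h2]
    have e2 : (range l.length).val.map (fun t => l.getD t 0)
        = ((List.range l.length).map (fun t => l.getD t 0) : List ℕ) := rfl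
    rw [e2, e, hl, Multiset.sort_eq]

theorem lemC (A : Set ℕ) (hA0 : ∀ a ∈ A, 0 < a)
    (hAmin : ∀ a ∈ A, ∀ b : Multiset ℕ, (∀ k ∈ b, k ∈ A) → 2 ≤ b.card → b.sum ≠ a)
    (M : ℕ) (hM : ∀ a ∈ A, a ≤ M) (n : ℕ) (hn : n ∈ A) (x : Multiset ℕ) (hx : ∀ k ∈ x, k ∈ A)
    (hnx : n ∉ x) (h : ℕ) (hh : ∀ k, x.count k ≤ h) (hs : (M - 1) ^ 2 < x.sum) :
    Trade A n (h + 1) x := by
  by_contra hbad
  obtain ⟨N, y, hmono, rfl⟩ := exists_index x
  have hmem : ∀ t, t < N → y t ∈ (range N).val.map y := fun t ht =>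
    Multiset.mem_map_of_mem y (mem_range.mpr ht)
  have hyA : ∀ t, t < N → y t ∈ A := fun t ht => hx _ (hmem t ht)
  have hyn : ∀ t, t < N → y t ≠ n := fun t ht e => hnx (e ▸ hmem t ht)
  have hn0 := hA0 n hn
  have hnM := hM n hn
  have hle : ∀ I ⊆ range N, I.val.map y ≤ (range N).val.map y := fun I hI =>
    Multiset.map_le_map (Finset.val_le_iff.mpr hI)
  have hrep : ∀ q, ∀ k ∈ Multiset.replicate q n, k ∈ A := fun q k hk =>
    (Multiset.eq_of_mem_replicate hk) ▸ hn
  have main : ∀ P r, r ≤ h → r * P ≤ (h + 1) * n → (∀ t, t < N → y t ≤ P) →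
      (N < n ∨ ∃ k D, 1 ≤ k ∧ (r + 1) * k + D ≤ n ∧ N ≤ h * k + D) := by
    intro P r hrh hrP hP
    refine count_bound y n h N P r hn0 hrh hrP hmono (fun t ht => hA0 _ (hyA t ht)) hP ?_ ?_ ?_ ?_
    · intro p
      have h1 := hh p
      rw [Multiset.count_map] at h1
      have e : ((range N).filter (fun t => y t = p)).card
          = (Multiset.filter (fun a => p = y a) (range N).val).card := by
        rw [Finset.card, filter_val]
        congr 1
        exact Multiset.filter_congr (fun a _ => eq_comm)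
      rwa [e]
    · intro I hI q t ht hc e
      refine hAmin _ (hyA t ht) (I.val.map y + Multiset.replicate q n) ?_ ?_ ?_
      · intro k hk
        rcases Multiset.mem_add.mp hk with hk | hk
        · exact hx k (Multiset.mem_of_le (hle I hI) hk)
        · exact hrep q k hk
      · simpa using hc
      · rw [Multiset.sum_add, Multiset.sum_replicate, smul_eq_mul]; exact e
    · intro I hI hc q h1 h2 e
      refine hbad ⟨_, hle I hI, Multiset.replicate q n, hrep q,
        Multiset.mem_replicate.mpr ⟨by omega, rfl⟩, ?_, by simpa using hc, by simpa using h2⟩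
      rw [Multiset.sum_replicate, smul_eq_mul]; exact e
    · intro I hI hc q t ht h1 h2 e
      refine hbad ⟨_, hle I hI, y t ::ₘ Multiset.replicate q n, ?_,
        Multiset.mem_cons_of_mem (Multiset.mem_replicate.mpr ⟨by omega, rfl⟩), ?_,
        by simpa using hc, by simpa using h2⟩
      · intro k hk
        rcases Multiset.mem_cons.mp hk with hk | hk
        · exact hk ▸ hyA t ht
        · exact hrep q k hk
      · rw [Multiset.sum_cons, Multiset.sum_replicate, smul_eq_mul]; exact e
  have hsum : ∀ P, (∀ t, t < N → y t ≤ P) → ((range N).val.map y).sum ≤ N * P := by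
    intro P hP
    have h1 : ∑ i ∈ range N, y i ≤ (range N).card • P :=
      Finset.sum_le_card_nsmul _ y P (fun i hi => hP i (mem_range.mp hi))
    rw [card_range, smul_eq_mul] at h1
    exact h1
  obtain ⟨m, rfl⟩ : ∃ m, M = m + 1 := ⟨M - 1, by omega⟩
  rw [Nat.add_sub_cancel] at hs
  rcases hnM.eq_or_lt with e | hlt
  · have hP : ∀ t, t < N → y t ≤ m := fun t ht => by
      have h1 := hM _ (hyA t ht)
      have h2 := hyn t ht
      omega
    have hN : N ≤ m := by
      rcases main m h le_rfl (by rw [e]; nlinarith) hP with h1 | ⟨k, D, h1, h2, h3⟩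
      · omega
      · have : (h + 1) * k = h * k + k := by ring
        omega
    have h1 := hsum m hP
    nlinarith
  · have hP : ∀ t, t < N → y t ≤ m + 1 := fun t ht => hM _ (hyA t ht)
    set r := (h + 1) * n / (m + 1) with hr
    have hr1 : r * (m + 1) ≤ (h + 1) * n := Nat.div_mul_le_self _ _
    have hr2 : (h + 1) * n < (r + 1) * (m + 1) := by
      rw [hr, mul_comm (_ + 1) (m + 1)]
      exact Nat.lt_mul_div_succ _ (by omega)
    have hrh : r ≤ h := by
      by_contra hc
      have : (h + 1) * (m + 1) ≤ r * (m + 1) := Nat.mul_le_mul_right _ (by omega)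
      nlinarith
    have hN : N + 1 ≤ m := by
      rcases main (m + 1) r hrh hr1 hP with h1 | ⟨k, D, h1, h2, h3⟩
      · omega
      · by_contra hc
        have h4 : m * n ≤ (h * k + D) * n := Nat.mul_le_mul_right _ (by omega)
        have h5 : (h + 1) * n * k < (r + 1) * (m + 1) * k := Nat.mul_lt_mul_of_pos_right hr2 h1
        have h6 : ((r + 1) * k + D) * (m + 1) ≤ n * (m + 1) := Nat.mul_le_mul_right _ h2
        have h7 : D * n ≤ D * (m + 1) := Nat.mul_le_mul_left _ hlt.le
        have h8 : n * 1 ≤ n * k := Nat.mul_le_mul_left _ h1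
        nlinarith
    have h1 := hsum (m + 1) hP
    nlinarith

theorem lemR (j : ℕ) (hj : 0 < j) (x : Multiset ℕ) :
    ∃ u ≤ x, u.sum ≡ x.sum [MOD j] ∧ u.card < j ∧ j ∉ u := by
  induction x using Multiset.strongInductionOn with
  | ih x ih =>
  by_cases hw : ∃ w ≤ x, w ≠ 0 ∧ j ∣ w.sum
  · obtain ⟨w, hwx, hw0, hd⟩ := hw
    obtain ⟨z, rfl⟩ := Multiset.le_iff_exists_add.mp hwx
    obtain ⟨u, hu, h1, h2, h3⟩ := ih z (by
      have : 0 < w := pos_iff_ne_zero.mpr hw0
      simpa using this)
    refine ⟨u, hu.trans (Multiset.le_add_left _ _), ?_, h2, h3⟩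
    rw [Multiset.sum_add]
    have h4 : 0 + z.sum ≡ w.sum + z.sum [MOD j] :=
      Nat.ModEq.add_right _ (Nat.modEq_zero_iff_dvd.mpr hd).symm
    rw [zero_add] at h4
    exact h1.trans h4
  · refine ⟨x, le_rfl, Nat.ModEq.refl _, ?_, ?_⟩
    · by_contra hc
      obtain ⟨N, y, -, rfl⟩ := exists_index x
      obtain ⟨l, i, hli, hi, hd⟩ := exists_block y j N hj (by simpa using hc)
      refine hw ⟨(Ico l i).val.map y, Multiset.map_le_map (Finset.val_le_iff.mpr ?_), ?_, hd⟩
      · intro t ht
        rw [mem_Ico] at ht; rw [mem_range]; omega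
      · intro e
        have := congrArg Multiset.card e
        simp at this
        omega
    · intro hc
      exact hw ⟨{j}, Multiset.singleton_le.mpr hc, by simp, by simp⟩

theorem transfer (A : Set ℕ) (hA0 : ∀ a ∈ A, 0 < a)
    (hAmin : ∀ a ∈ A, ∀ b : Multiset ℕ, (∀ k ∈ b, k ∈ A) → 2 ≤ b.card → b.sum ≠ a)
    (M : ℕ) (hM : ∀ a ∈ A, a ≤ M) (s s' : ℕ) (hs : (M - 1) ^ 2 < s) (hs' : (M - 1) ^ 2 < s')
    (hc : ∀ a ∈ A, s ≡ s' [MOD a]) (n : ℕ) (hn : n ∈ A) (T : ℕ)
    (H : ∀ x' : Multiset ℕ, (∀ k ∈ x', k ∈ A) → x'.sum = s' → n ∉ x' → Trade A n T x')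
    (x : Multiset ℕ) (hx : ∀ k ∈ x, k ∈ A) (hxs : x.sum = s) (hnx : n ∉ x) : Trade A n T x := by
  have hne : x.toFinset.Nonempty := by
    rw [Multiset.toFinset_nonempty]
    rintro rfl
    simp at hxs; omega
  obtain ⟨j, hj, hmax⟩ := Finset.exists_max_image x.toFinset (fun k => x.count k) hne
  rw [Multiset.mem_toFinset] at hj
  have hh : ∀ k, x.count k ≤ x.count j := by
    intro k
    by_cases hk : k ∈ x
    · exact hmax k (Multiset.mem_toFinset.mpr hk)
    · rw [Multiset.count_eq_zero_of_notMem hk]; exact Nat.zero_le _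
  have hjA := hx j hj
  obtain ⟨u, hu, hu1, hu2, hu3⟩ := lemR j (hA0 j hjA) x
  have huA : ∀ k ∈ u, k ∈ A := fun k hk => hx k (Multiset.mem_of_le hu hk)
  have hjM := hM j hjA
  have hj0 := hA0 j hjA
  have husum : u.sum ≤ (M - 1) ^ 2 := by
    obtain ⟨m, rfl⟩ : ∃ m, M = m + 1 := ⟨M - 1, by omega⟩
    rw [Nat.add_sub_cancel]
    rcases hjM.eq_or_lt with e | hlt
    · have h1 : u.sum ≤ u.card • m := Multiset.sum_le_card_nsmul u m (fun k hk => by
        have h1 := hM k (huA k hk)
        have h2 : k ≠ j := fun e' => hu3 (e' ▸ hk)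
        omega)
      rw [smul_eq_mul] at h1
      have h2 : u.card ≤ m := by omega
      nlinarith
    · have h1 : u.sum ≤ u.card • (m + 1) :=
        Multiset.sum_le_card_nsmul u (m + 1) (fun k hk => hM k (huA k hk))
      rw [smul_eq_mul] at h1
      have h2 : u.card + 1 ≤ m := by omega
      nlinarith
  have hcong : u.sum ≡ s' [MOD j] := hu1.trans (hxs ▸ hc j hjA)
  obtain ⟨c, hcq⟩ := (Nat.modEq_iff_dvd' (by omega)).mp hcong
  have hnj : n ≠ j := fun e => hnx (e ▸ hj)
  obtain ⟨a, ha, b, h1, h2, h3, h4, h5⟩ := H (u + Multiset.replicate c j) (by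
      intro k hk
      rcases Multiset.mem_add.mp hk with hk | hk
      · exact huA k hk
      · exact (Multiset.eq_of_mem_replicate hk) ▸ hjA)
    (by rw [Multiset.sum_add, Multiset.sum_replicate, smul_eq_mul, mul_comm]; omega)
    (by
      intro hk
      rcases Multiset.mem_add.mp hk with hk | hk
      · exact hnx (Multiset.mem_of_le hu hk)
      · exact hnj (Multiset.eq_of_mem_replicate hk))
  rcases le_or_gt (a.count j) (x.count j) with hle | hlt
  · refine ⟨a, Multiset.le_iff_count.mpr (fun k => ?_), b, h1, h2, h3, h4, h5⟩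
    by_cases hk : k = j
    · rw [hk]; exact hle
    · have h6 := Multiset.le_iff_count.mp ha k
      have h7 := Multiset.le_iff_count.mp hu k
      rw [Multiset.count_add, Multiset.count_replicate, if_neg (Ne.symm hk)] at h6
      omega
  · have h6 := Multiset.count_le_card j a
    exact (lemC A hA0 hAmin M hM n hn x hx hnx _ hh (by omega)).mono (by omega)

end Pool.Agent.MP_f20d00_al
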